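import Pool.Agent.V11155.Arrange

/-!
Complete simple games with three types of voters and two shift-minimal winning vectors:
3-trade robustness implies weightedness.
-/

namespace Pool.Agent.Results.MP_5465ec_co.TwoShiftMinimal

open Finset Pool.Agent.V11155.TradeGames

/-- A game is weighted: there are nonnegative real weights and a real quota such that the
winning coalitions are those whose total weight is at least the quota. -/
def Weighted {N : Type} [Fintype N] (G : SimpleGame N) : Prop :=
  ∃ (w : N → ℝ) (q : ℝ), (∀ i, 0 ≤ w i) ∧ ∀ S : Finset N, G.win S ↔ q ≤ ∑ i ∈ S, w i

/-- A complete simple game with three types of voters and two shift-minimal winning vectors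
which is 3-trade robust is weighted. -/
theorem result : ∀ (N : Type) [Fintype N] [DecidableEq N] (G : SimpleGame N),
    Complete G → numTypes G = 3 → numSMW G = 2 → TradeRobust G 3 → Weighted G :=
  fun _ _ _ G _ ht _ h => Pool.Agent.V11155.Arrange.weighted_of_tr G ht.le h

end Pool.Agent.Results.MP_5465ec_co.TwoShiftMinimal
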